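import Mathlib
import Pool.Agent.Helper10.Weil

/-!
# Weil cohomology over a field `F` and over the function field of a variety over `F`
-/

universe u v w

open CategoryTheory AlgebraicGeometry Limits

namespace Pool.Agent.Helper11.FP

open Pool.Agent.Helper10 Pool.Agent.Helper10.SmProjVar

noncomputable section

/-- The morphism `Spec k ⟶ Spec F`. -/
def specMap (F k : Type u) [Field F] [Field k] [Algebra F k] :
    Spec (CommRingCat.of k) ⟶ Spec (CommRingCat.of F) :=
  Spec.map (CommRingCat.ofHom (algebraMap F k))

section Geometry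

variable {F k : Type u} [Field F] [Field k] [Algebra F k]

/-- A morphism of schemes over `Spec k ⟶ Spec F` from a smooth projective variety over `k` to a
smooth projective variety over `F`. -/
structure Mor (X : SmProjVar k) (V : SmProjVar F) where
  toHom : X.toOver.left ⟶ V.toOver.left
  w : toHom ≫ V.toOver.hom = X.toOver.hom ≫ specMap F k

/-- Composition with a morphism of varieties over `k`. -/
def Mor.precomp {X X' : SmProjVar k} {V : SmProjVar F} (g : Mor X V)
    (h : X'.toOver ⟶ X.toOver) : Mor X' V where
  toHom := h.left ≫ g.toHom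
  w := by rw [Category.assoc, g.w, ← Category.assoc, Over.w h]

/-- Composition with a morphism of varieties over `F`. -/
def Mor.postcomp {X : SmProjVar k} {V V' : SmProjVar F} (g : Mor X V)
    (h : V.toOver ⟶ V'.toOver) : Mor X V' where
  toHom := g.toHom ≫ h.left
  w := by rw [Category.assoc, Over.w h, g.w]

/-- `X` is the base change `V ×_F k`. -/
def Mor.IsBaseChange {X : SmProjVar k} {V : SmProjVar F} (g : Mor X V) : Prop :=
  IsPullback g.toHom X.toOver.hom V.toOver.hom (specMap F k)

/-- `k` is the function field of `S`, and `σ` is the inclusion of the generic point. -/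
structure IsGenericPoint {S : SmProjVar F} (σ : Spec (CommRingCat.of k) ⟶ S.toOver.left) :
    Prop where
  w : σ ≫ S.toOver.hom = specMap F k
  mono : Mono σ
  generic : ∀ z, σ z = S.genericPt

/-- A smooth projective model of `X` over `S`: a smooth projective variety `Y` over `F` with a
morphism `f : Y ⟶ S` whose generic fibre is `X`. -/
structure Model {S : SmProjVar F} (σ : Spec (CommRingCat.of k) ⟶ S.toOver.left)
    (X : SmProjVar k) where
  Y : SmProjVar F
  f : Y.toOver ⟶ S.toOver
  incl : Mor X Y
  isPullback : IsPullback incl.toHom X.toOver.hom f.left σ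

end Geometry

section Cohomology

variable {F k : Type u} [Field F] [Field k] [Algebra F k] {K : Type v} [Field K] [CharZero K]

/-- Restriction maps `H(V) → H'(X)` for the morphisms from varieties `X` over `k` to varieties `V`
over `F`, where `H` and `H'` are Weil cohomology theories over `F` and over `k` with the same
coefficients: they are functorial homomorphisms of graded algebras, and bijective for base
changes. -/
structure Comparison (W : WeilCohomology.{u, v, w} F K) (W' : WeilCohomology.{u, v, w} k K) where
  res : ∀ {X : SmProjVar k} {V : SmProjVar F}, Mor X V → W.H V → W'.H X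
  isHom : ∀ {X : SmProjVar k} {V : SmProjVar F} (g : Mor X V),
    IsGradedHom (W.gr V) (W'.gr X) (res g)
  res_precomp : ∀ {X X' : SmProjVar k} {V : SmProjVar F} (g : Mor X V)
    (h : X'.toOver ⟶ X.toOver) (y : W.H V), res (g.precomp h) y = W'.pull h (res g y)
  res_postcomp : ∀ {X : SmProjVar k} {V V' : SmProjVar F} (g : Mor X V)
    (h : V.toOver ⟶ V'.toOver) (y : W.H V'), res (g.postcomp h) y = res g (W.pull h y)
  bijective : ∀ {X : SmProjVar k} {V : SmProjVar F} (g : Mor X V), g.IsBaseChange →
    Function.Bijective (res g)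

variable {W : WeilCohomology.{u, v, w} F K} {W' : WeilCohomology.{u, v, w} k K}
  {S : SmProjVar F}

/-- The restriction to the generic fibre is compatible with the classes of cycles and with the
traces: `∫_Y y ∪ f^* s = ∫_S s ∫_X y|_X` for `y` in `H(Y)` and `s` in `H^{2 dim S}(S)`. -/
structure Comparison.IsCompatible (E : Comparison W W')
    (σ : Spec (CommRingCat.of k) ⟶ S.toOver.left) : Prop where
  cy : ∀ {X : SmProjVar k} (m : Model σ X) (j : ℕ) (c : m.Y.Z j) (c' : X.Z j),
    (∀ x, c'.toCyc.coeff x = c.toCyc.coeff (m.incl.toHom x)) →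
      E.res m.incl (W.cy m.Y j c) = W'.cy X j c'
  tr : ∀ {X : SmProjVar k} (m : Model σ X) (y : W.H m.Y) (s : W.H S), s ∈ W.gr S (2 * S.dim) →
    W.tr m.Y (y * W.pull m.f s) = W.tr S s * W'.tr X (E.res m.incl y)

/-- Conjecture D for the cycles of codimension `j` on `X`. -/
def StandardDAt (W : WeilCohomology.{u, v, w} F K) (X : SmProjVar F) (j : ℕ) : Prop :=
  ∀ a b : X.Z j, W.NumEquiv X j a b → W.HomEquiv X j a b

variable (E : Comparison W W') {σ : Spec (CommRingCat.of k) ⟶ S.toOver.left} {X : SmProjVar k}

/-- The Poincaré pairing of `H'(X)` is non-degenerate on the fixed part, the image of `H(Y)`. -/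
def FixedPartNondegenerate (m : Model σ X) : Prop :=
  ∀ y : W.H m.Y, (∀ y' : W.H m.Y, W'.tr X (E.res m.incl y * E.res m.incl y') = 0) →
    E.res m.incl y = 0

/-- The orthogonal projection of `H'(X)` onto the fixed part, the image of `H(Y)`, exists and is
given by an algebraic class on `X × X`. -/
def FixedPartAlgebraic (m : Model σ X) : Prop :=
  ∃ u : W'.H X → W'.H X, W'.IsAlgebraicMap X X u ∧
    (∀ y : W.H m.Y, u (E.res m.incl y) = E.res m.incl y) ∧
    (∀ x : W'.H X, ∃ y : W.H m.Y, u x = E.res m.incl y) ∧
    (∀ x : W'.H X, (∀ y : W.H m.Y, W'.tr X (x * E.res m.incl y) = 0) → u x = 0)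

/-- A class on `Y` whose product with the class of a closed fibre of `f : Y ⟶ S` is zero restricts
to zero on the generic fibre `X`. -/
def ClosedFibreDetects (m : Model σ X) : Prop :=
  ∀ y : W.H m.Y, (∀ s ∈ W.gr S (2 * S.dim), y * W.pull m.f s = 0) → E.res m.incl y = 0

/-- The class of a cycle of codimension `j` on `Y` whose product with the class of a closed fibre
of `f : Y ⟶ S` is zero restricts to zero on the generic fibre `X`. -/
def ClosedFibreDetectsCycles (m : Model σ X) (j : ℕ) : Prop :=
  ∀ c : m.Y.Z j, (∀ s ∈ W.gr S (2 * S.dim), W.cy m.Y j c * W.pull m.f s = 0) →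
    E.res m.incl (W.cy m.Y j c) = 0

end Cohomology

end

end Pool.Agent.Helper11.FP
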