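import Mathlib
import Pool.Agent.Helper11.FP.Defs
import Pool.Agent.Helper10.BaseChange

/-!
# Basic lemmas for theorem FP
-/

universe u v w

open CategoryTheory AlgebraicGeometry Limits

namespace Pool.Agent.Helper11.FP

open Pool.Agent.Helper10 Pool.Agent.Helper10.SmProjVar

noncomputable section

variable {F k : Type u} [Field F] [Field k] [Algebra F k] {K : Type v} [Field K] [CharZero K]
  {W : WeilCohomology.{u, v, w} F K} {W' : WeilCohomology.{u, v, w} k K}

/-- The restriction map as a homomorphism of algebras. -/
def Comparison.resA (E : Comparison W W') {X : SmProjVar k} {V : SmProjVar F} (g : Mor X V) :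
    W.H V →ₐ[K] W'.H X :=
  AlgHom.ofLinearMap
    { toFun := E.res g
      map_add' := (E.isHom g).map_add
      map_smul' := (E.isHom g).map_smul } (E.isHom g).map_one (E.isHom g).map_mul

lemma Comparison.resA_apply (E : Comparison W W') {X : SmProjVar k} {V : SmProjVar F}
    (g : Mor X V) (y : W.H V) : E.resA g y = E.res g y := rfl

/-- The part of `H(V)` which comes from `H(A)` by algebraic correspondences. -/
def imageK (W : WeilCohomology.{u, v, w} F K) (A V : SmProjVar F) : Submodule K (W.H V) :=
  Submodule.span K {z | ∃ γ ∈ W.algClasses (A.prod V), ∃ x : W.H A, ∀ y : W.H V,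
    W.trL V (z * y) = W.trL (A.prod V) (W.pullA (fst A V) x * γ * W.pullA (snd A V) y)}

end

end Pool.Agent.Helper11.FP
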