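import Mathlib
import Pool.Agent.Helper11.FP.St.G4
import Pool.Agent.Helper11.FP.St.C1
import Pool.Agent.Helper11.FP.St.C2
import Pool.Agent.Helper11.FP.St.C4
import Pool.Agent.Helper11.FP.St.C5

/-!
# The standard conjecture D over function fields
-/

universe u v w

open CategoryTheory AlgebraicGeometry Limits

namespace Pool.Agent.Helper11.FP

open Pool.Agent.Helper10 Pool.Agent.Helper10.SmProjVar

variable {F k : Type u} [Field F] [Field k] [Algebra F k] {K : Type v} [Field K] [CharZero K]
  {W : WeilCohomology.{u, v, w} F K} {W' : WeilCohomology.{u, v, w} k K} {S : SmProjVar F}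
  {σ : Spec (CommRingCat.of k) ⟶ S.toOver.left} {X : SmProjVar k} {E : Comparison W W'}

theorem fixedPartAlgebraic_of_standardD (hσ : IsGenericPoint σ) (hE : E.IsCompatible σ)
    (m : Model σ X) {Y' : SmProjVar k} (g : Mor Y' m.Y) (hg : g.IsBaseChange)
    (hD : W'.StandardD (Y'.prod X)) : FixedPartAlgebraic E m := by
  obtain ⟨u, hu, h1, h2, h3⟩ := exists_projector W' Y' X hD
  have key := mem_imageK_iff E hσ hE m g hg
  refine ⟨u, hu, fun y => h1 _ ((key _).mpr ⟨y, rfl⟩), fun x => (key _).mp (h2 x),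
    fun x hx => h3 x fun i hi => ?_⟩
  obtain ⟨y, rfl⟩ := (key i).mp hi
  exact hx y

theorem nondegenerate_of_algebraic {m : Model σ X} (h : FixedPartAlgebraic E m) :
    FixedPartNondegenerate E m := by
  obtain ⟨u, -, h1, -, h3⟩ := h
  intro y hy
  rw [← h1 y, h3 _ hy]

theorem nondegenerate_iff (hE : E.IsCompatible σ) (m : Model σ X) :
    FixedPartNondegenerate E m ↔ ClosedFibreDetects E m := by
  constructor
  · intro h y hy
    refine h y fun y' => ?_
    obtain ⟨s, ⟨hs, hs1⟩, -⟩ := (W.trace S).bijective 1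
    have h2 := tr_res_mul E hE m y y' hs
    rw [hs1, one_mul, hy s hs, zero_mul] at h2
    rw [h2]
    exact (W.trL m.Y).map_zero
  · intro h y hy
    refine h y fun s hs => (W.trace m.Y).nondegenerate _ fun y' => ?_
    rw [← tr_res_mul E hE m y y' hs, hy, mul_zero]

theorem detects_cycles {m : Model σ X} (h : ClosedFibreDetects E m) (j : ℕ) :
    ClosedFibreDetectsCycles E m j := fun c hc => h _ hc

/-- Conjecture D for the varieties over `k = F(S)` which have a smooth projective model over `S`. -/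
theorem tfae (hσ : IsGenericPoint σ) (hE : E.IsCompatible σ) :
    List.TFAE [∀ X : SmProjVar k, Nonempty (Model σ X) → W'.StandardD X,
      (∀ V : SmProjVar F, W.StandardD V) ∧
        ∀ (X : SmProjVar k) (m : Model σ X), FixedPartAlgebraic E m,
      (∀ V : SmProjVar F, W.StandardD V) ∧
        ∀ (X : SmProjVar k) (m : Model σ X), FixedPartNondegenerate E m,
      (∀ V : SmProjVar F, W.StandardD V) ∧
        ∀ (X : SmProjVar k) (m : Model σ X) (j : ℕ), ClosedFibreDetectsCycles E m j] := by
  tfae_have 1 → 2 := by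
    intro h
    refine ⟨fun V => ?_, fun X m => ?_⟩
    · obtain ⟨V', g, hg⟩ := exists_baseChange (k := k) V
      exact standardD_of_baseChange E hσ hE g hg (h V' ⟨constModel hσ g hg⟩)
    · obtain ⟨Y', g, hg⟩ := exists_baseChange (k := k) m.Y
      exact fixedPartAlgebraic_of_standardD hσ hE m g hg (h _ ⟨prodModel g hg m⟩)
  tfae_have 2 → 3 := fun h => ⟨h.1, fun X m => nondegenerate_of_algebraic (h.2 X m)⟩
  tfae_have 3 → 4 := fun h =>
    ⟨h.1, fun X m => detects_cycles ((nondegenerate_iff hE m).mp (h.2 X m))⟩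
  tfae_have 4 → 1 := by
    rintro ⟨h, h'⟩ X ⟨m⟩ j
    exact standardDAt_of_detects E hσ hE m (h' X m j) (h m.Y _)
  tfae_finish

theorem standardDAt_iff (hσ : IsGenericPoint σ) (hE : E.IsCompatible σ) (m : Model σ X) {j : ℕ}
    (hD : StandardDAt W m.Y (j + S.dim)) :
    StandardDAt W' X j ↔ ClosedFibreDetectsCycles E m j :=
  ⟨closedFibreDetectsCycles_of_standardDAt E hσ hE m,
    fun h => standardDAt_of_detects E hσ hE m h hD⟩

end Pool.Agent.Helper11.FP
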